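import Pool.Agent.H174.GP.StE
import Pool.Agent.H174.GP.StA

/-!
# QXa: the deterministic part (helper860, for helper174)
-/

set_option autoImplicit false

open MeasureTheory ProbabilityTheory Finset Filter Topology

namespace Pool.Agent.H860.GP174

open Pool.Agent.H174.GP

open scoped Classical

theorem IP_bounds {D : ℕ} {σ : ℝ} {ω : ℕ → ℝ} {i : ℕ} (hi : i ∈ IP D σ ω) :
    D < i ∧ i ≤ 2 * D ∧ prD D σ ω i := by
  unfold IP at hi
  rw [Finset.mem_filter, Finset.mem_Ioc] at hi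
  exact ⟨hi.1.1, hi.1.2, hi.2⟩

/-- the correction -/
theorem XT_eq (D : ℕ) (σ : ℝ) (p : (ℕ → ℝ) × (ℕ → ℝ)) (j : ℕ) :
    (XT D σ p j : ℝ) = (X0 D σ p.1 j : ℝ) +
      ((if j ∈ IP D σ p.1 then -(sg (p.2 j) : ℝ) else 0) +
      (if D ≤ j ∧ j - D ∈ IP D σ p.1 then (sg (p.2 (j - D)) : ℝ) else 0)) := by
  unfold XT X0
  by_cases h1 : j ∈ IP D σ p.1
  · have h2 : ¬ (D ≤ j ∧ j - D ∈ IP D σ p.1) := by
      rintro ⟨h3, h4⟩
      have h5 := IP_bounds h1
      have h6 := IP_bounds h4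
      omega
    rw [if_pos h1, if_pos (Or.inl h1), if_pos h1, if_neg h2]
    push_cast
    ring
  · by_cases h2 : D ≤ j ∧ j - D ∈ IP D σ p.1
    · rw [if_neg h1, if_pos h2, if_pos (Or.inr h2), if_neg h1, if_pos h2]
      push_cast
      ring
    · have h3 : ¬ (j ∈ IP D σ p.1 ∨ (D ≤ j ∧ j - D ∈ IP D σ p.1)) := by
        rintro (h | h)
        · exact h1 h
        · exact h2 h
      rw [if_neg h1, if_neg h2, if_neg h3, if_neg h1, if_neg h2]
      ring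

/-- sums of the corrections -/
theorem sum_XT (D d : ℕ) (hDd : 3 * D ≤ d) (σ : ℝ) (p : (ℕ → ℝ) × (ℕ → ℝ)) (w : ℕ → ℝ) :
    ∑ j ∈ Icc 1 d, w j * (XT D σ p j : ℝ) = ∑ j ∈ Icc 1 d, w j * (X0 D σ p.1 j : ℝ) +
      ∑ i ∈ IP D σ p.1, (sg (p.2 i) : ℝ) * (w (i + D) - w i) := by
  have h1 : ∑ j ∈ Icc 1 d, w j * (if j ∈ IP D σ p.1 then -(sg (p.2 j) : ℝ) else 0) =
      ∑ i ∈ IP D σ p.1, w i * -(sg (p.2 i) : ℝ) := by
    symm
    have hsub : IP D σ p.1 ⊆ Icc 1 d := by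
      intro i hi
      have := IP_bounds hi
      rw [Finset.mem_Icc]
      omega
    calc ∑ i ∈ IP D σ p.1, w i * -(sg (p.2 i) : ℝ)
        = ∑ i ∈ IP D σ p.1, w i * (if i ∈ IP D σ p.1 then -(sg (p.2 i) : ℝ) else 0) :=
          Finset.sum_congr rfl fun i hi => by rw [if_pos hi]
      _ = _ := Finset.sum_subset hsub fun j _ hj => by rw [if_neg hj, mul_zero]
  have h2 : ∑ j ∈ Icc 1 d, w j * (if D ≤ j ∧ j - D ∈ IP D σ p.1 then
      (sg (p.2 (j - D)) : ℝ) else 0) = ∑ i ∈ IP D σ p.1, w (i + D) * (sg (p.2 i) : ℝ) := by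
    symm
    have hinj : Set.InjOn (fun i => i + D) (IP D σ p.1 : Set ℕ) := fun a _ b _ hab =>
      Nat.add_right_cancel hab
    have hsub : (IP D σ p.1).image (fun i => i + D) ⊆ Icc 1 d := by
      intro j hj
      obtain ⟨i, hi, rfl⟩ := Finset.mem_image.1 hj
      have := IP_bounds hi
      rw [Finset.mem_Icc]
      omega
    calc ∑ i ∈ IP D σ p.1, w (i + D) * (sg (p.2 i) : ℝ)
        = ∑ j ∈ (IP D σ p.1).image (fun i => i + D), w j *
          (if D ≤ j ∧ j - D ∈ IP D σ p.1 then (sg (p.2 (j - D)) : ℝ) else 0) := by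
          rw [Finset.sum_image hinj]
          refine Finset.sum_congr rfl fun i hi => ?_
          rw [Nat.add_sub_cancel, if_pos ⟨Nat.le_add_left _ _, hi⟩]
      _ = _ := Finset.sum_subset hsub fun j _ hj => by
          rw [if_neg, mul_zero]
          rintro ⟨h3, h4⟩
          exact hj (Finset.mem_image.2 ⟨j - D, h4, Nat.sub_add_cancel h3⟩)
  have h3 : ∑ j ∈ Icc 1 d, w j * (XT D σ p j : ℝ) = ∑ j ∈ Icc 1 d, w j * (X0 D σ p.1 j : ℝ) +
      (∑ j ∈ Icc 1 d, w j * (if j ∈ IP D σ p.1 then -(sg (p.2 j) : ℝ) else 0) +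
      ∑ j ∈ Icc 1 d, w j * (if D ≤ j ∧ j - D ∈ IP D σ p.1 then
      (sg (p.2 (j - D)) : ℝ) else 0)) := by
    rw [← Finset.sum_add_distrib, ← Finset.sum_add_distrib]
    refine Finset.sum_congr rfl fun j _ => ?_
    rw [XT_eq]
    ring
  rw [h3, h1, h2, ← Finset.sum_add_distrib]
  congr 1
  refine Finset.sum_congr rfl fun i _ => ?_
  ring

/-- Abel summation -/
theorem abel (f ψ : ℕ → ℝ) (m : ℝ) (hψ : ∀ i, ψ (i + 1) ≤ ψ i) (hψ0 : ∀ i, 0 ≤ ψ i)
    (hf : ∀ l, m ≤ ∑ i ∈ range l, f i) (N : ℕ) :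
    m * ψ 0 ≤ ∑ i ∈ range N, f i * ψ i := by
  have key : ∀ N, (∑ i ∈ range N, f i) * ψ N + m * (ψ 0 - ψ N) ≤ ∑ i ∈ range N, f i * ψ i := by
    intro N
    induction N with
    | zero => simp
    | succ N ih =>
      rw [Finset.sum_range_succ (fun i => f i * ψ i)]
      have h1 := hf (N + 1)
      have h2 := hψ N
      have h3 : (∑ i ∈ range (N + 1), f i) = (∑ i ∈ range N, f i) + f N :=
        Finset.sum_range_succ _ _
      rw [h3] at h1 ⊢
      nlinarith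
  have h1 := key N
  have h2 := hf N
  have h3 := hψ0 N
  nlinarith

/-- Abel summation over the flippable pairs -/
theorem abel_IP (D : ℕ) (σ : ℝ) (p : (ℕ → ℝ) × (ℕ → ℝ)) (m : ℝ) (hm : m ≤ 0) (k : ℕ)
    (h : ∀ l : ℕ, m ≤ ((∑ i ∈ (IP D σ p.1).filter (fun i => i ≤ l), sg (p.2 i) : ℤ) : ℝ)) :
    m * D ≤ ∑ i ∈ IP D σ p.1, (sg (p.2 i) : ℝ) *
      (((min (i + D) k : ℕ) : ℝ) - ((min i k : ℕ) : ℝ)) := by
  have h1 := abel (fun i => if i ∈ IP D σ p.1 then (sg (p.2 i) : ℝ) else 0)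
    (fun i => ((min (i + D) k : ℕ) : ℝ) - ((min i k : ℕ) : ℝ)) m ?_ ?_ ?_ (2 * D + 1)
  · have h2 : ∑ i ∈ range (2 * D + 1), (if i ∈ IP D σ p.1 then (sg (p.2 i) : ℝ) else 0) *
        (((min (i + D) k : ℕ) : ℝ) - ((min i k : ℕ) : ℝ)) =
        ∑ i ∈ IP D σ p.1, (sg (p.2 i) : ℝ) *
        (((min (i + D) k : ℕ) : ℝ) - ((min i k : ℕ) : ℝ)) := by
      symm
      have hsub : IP D σ p.1 ⊆ range (2 * D + 1) := by
        intro i hi
        have := IP_bounds hi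
        rw [Finset.mem_range]
        omega
      calc ∑ i ∈ IP D σ p.1, (sg (p.2 i) : ℝ) *
            (((min (i + D) k : ℕ) : ℝ) - ((min i k : ℕ) : ℝ))
          = ∑ i ∈ IP D σ p.1, (if i ∈ IP D σ p.1 then (sg (p.2 i) : ℝ) else 0) *
            (((min (i + D) k : ℕ) : ℝ) - ((min i k : ℕ) : ℝ)) :=
            Finset.sum_congr rfl fun i hi => by rw [if_pos hi]
        _ = _ := Finset.sum_subset hsub fun j _ hj => by rw [if_neg hj, zero_mul]
    rw [h2] at h1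
    refine le_trans ?_ h1
    refine mul_le_mul_of_nonpos_left ?_ hm
    have h3 : min (0 + D) k ≤ D := by omega
    have h4 : ((min (0 + D) k : ℕ) : ℝ) ≤ D := by exact_mod_cast h3
    have h5 : (0 : ℝ) ≤ ((min 0 k : ℕ) : ℝ) := Nat.cast_nonneg _
    linarith
  · intro i
    have h3 : min (i + 1 + D) k + min i k ≤ min (i + D) k + min (i + 1) k := by omega
    have h4 : ((min (i + 1 + D) k : ℕ) : ℝ) + ((min i k : ℕ) : ℝ) ≤
      ((min (i + D) k : ℕ) : ℝ) + ((min (i + 1) k : ℕ) : ℝ) := by exact_mod_cast h3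
    change ((min (i + 1 + D) k : ℕ) : ℝ) - ((min (i + 1) k : ℕ) : ℝ) ≤
      ((min (i + D) k : ℕ) : ℝ) - ((min i k : ℕ) : ℝ)
    linarith
  · intro i
    have h3 : min i k ≤ min (i + D) k := by omega
    have h4 : ((min i k : ℕ) : ℝ) ≤ ((min (i + D) k : ℕ) : ℝ) := by exact_mod_cast h3
    change 0 ≤ ((min (i + D) k : ℕ) : ℝ) - ((min i k : ℕ) : ℝ)
    linarith
  · intro l
    rcases Nat.eq_zero_or_pos l with rfl | hl
    · rw [Finset.sum_range_zero]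
      exact hm
    · obtain ⟨l', rfl⟩ := Nat.exists_eq_add_of_lt hl
      refine (h (0 + l')).trans (le_of_eq ?_)
      rw [Finset.sum_ite, Finset.sum_const_zero, add_zero, Int.cast_sum]
      refine Finset.sum_congr ?_ fun _ _ => rfl
      ext i
      rw [Finset.mem_filter, Finset.mem_filter, Finset.mem_range]
      constructor
      · rintro ⟨h1, h2⟩
        exact ⟨by omega, h1⟩
      · rintro ⟨h1, h2⟩
        exact ⟨h2, by omega⟩

theorem abs_XT (D : ℕ) (σ : ℝ) (p : (ℕ → ℝ) × (ℕ → ℝ)) (j : ℕ) :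
    |XT D σ p j| = |geo σ p.1 j| := by
  have hsg : ∀ x : ℝ, |sg x| = 1 := by
    intro x
    unfold sg
    split_ifs <;> simp
  unfold XT
  by_cases h1 : j ∈ IP D σ p.1
  · rw [if_pos h1, abs_neg, hsg]
    obtain ⟨-, -, h2⟩ := IP_bounds h1
    rcases h2 with ⟨h3, -⟩ | ⟨h3, -⟩ <;> rw [h3] <;> simp
  · rw [if_neg h1]
    by_cases h2 : D ≤ j ∧ j - D ∈ IP D σ p.1
    · rw [if_pos h2, hsg]
      obtain ⟨-, -, h3⟩ := IP_bounds h2.2
      unfold prD at h3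
      rw [Nat.sub_add_cancel h2.1] at h3
      rcases h3 with ⟨-, h3⟩ | ⟨-, h3⟩ <;> rw [h3] <;> simp
    · rw [if_neg h2]

theorem X0_small (D : ℕ) (σ : ℝ) (ω : ℕ → ℝ) (j : ℕ) (hj : j < D) : X0 D σ ω j = geo σ ω j := by
  unfold X0
  rw [if_neg]
  rintro (h | h)
  · have := IP_bounds h
    omega
  · omega

theorem sum_split (f : ℕ → ℝ) {B d : ℕ} (hB : 1 ≤ B) (hBd : B ≤ d) :
    ∑ j ∈ Icc 1 d, f j = f 1 + ∑ j ∈ Icc 2 B, f j + ∑ j ∈ Ioc B d, f j := by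
  have h1 : Icc 1 d = Ioc 0 d := by
    ext x
    rw [Finset.mem_Icc, Finset.mem_Ioc]
    omega
  have h2 : Icc 2 B = Ioc 1 B := by
    ext x
    rw [Finset.mem_Icc, Finset.mem_Ioc]
    omega
  have h3 : (Ioc 0 1 : Finset ℕ) = {1} := by
    ext x
    rw [Finset.mem_Ioc, Finset.mem_singleton]
    omega
  rw [h1, h2, ← Finset.sum_Ioc_consecutive f (Nat.zero_le B) hBd,
    ← Finset.sum_Ioc_consecutive f (Nat.zero_le 1) hB, h3, Finset.sum_singleton]

theorem mean_le {x : ℝ} (hx : 0 < x) :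
    2 * Real.exp (-x) / (1 - Real.exp (-(2 * x))) ≤ 1 / x := by
  have h1 : Real.exp (-(2 * x)) < 1 := by
    rw [Real.exp_lt_one_iff]
    linarith
  rw [div_le_div_iff₀ (by linarith) hx]
  have h2 := Real.self_le_sinh_iff.2 hx.le
  rw [Real.sinh_eq] at h2
  have h3 : Real.exp x * Real.exp (-x) = 1 := by rw [← Real.exp_add]; simp
  have h4 : Real.exp (-(2 * x)) = Real.exp (-x) * Real.exp (-x) := by
    rw [← Real.exp_add]
    congr 1
    ring
  have h5 := Real.exp_pos (-x)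
  have h6 : 2 * x * Real.exp (-x) ≤ (Real.exp x - Real.exp (-x)) * Real.exp (-x) := by
    refine mul_le_mul_of_nonneg_right ?_ h5.le
    linarith
  rw [h4]
  nlinarith

/-- **QXa.** (`S_Tq` is not needed: `prD` contains the values.) -/
theorem gp_qxa (_h1 : S_Tq) : Pool.Agent.H174.GP.S_QXa := by
  intro s1 s2 C1 ε' η R c hs1 hs2 hC1 hε' hη hη4 hR hc
  refine ⟨R + C1 + 1, by linarith, 2 * R + C1 + 1, by linarith, ?_⟩
  obtain ⟨N1, hN1⟩ := exists_nat_ge (Real.exp ((8 / 7 * (R + 1 + 1 / s1)) ^ 2 / ε'))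
  obtain ⟨N2, hN2⟩ := exists_nat_ge (1 / η)
  refine ⟨max 8 (max N1 N2), ?_⟩
  intro d hd σ hσ hσ1 hσ2 t ht p hp
  have hd8 : 8 ≤ d := le_trans (le_max_left _ _) hd
  have hdN1 : N1 ≤ d := le_trans (le_trans (le_max_left _ _) (le_max_right _ _)) hd
  have hdN2 : N2 ≤ d := le_trans (le_trans (le_max_right _ _) (le_max_right _ _)) hd
  have hd8r : (8 : ℝ) ≤ d := by exact_mod_cast hd8
  have hdpos : (0 : ℝ) < d := by linarith
  -- the numbers
  obtain ⟨D, hD⟩ : ∃ D : ℕ, D = d / 3 := ⟨_, rfl⟩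
  obtain ⟨B, hB⟩ : ∃ B : ℕ, B = ⌊η * d⌋₊ := ⟨_, rfl⟩
  obtain ⟨Q, hQ⟩ : ∃ Q : ℝ, Q = (d : ℝ) ^ (3 / 2 : ℝ) := ⟨_, rfl⟩
  obtain ⟨a, ha⟩ : ∃ a : ℕ, a = ⌈Real.sqrt d⌉₊ := ⟨_, rfl⟩
  have h3D : 3 * D ≤ d := by omega
  have hB1 : 1 ≤ B := by
    rw [hB, Nat.one_le_floor_iff]
    have h2 : 1 / η ≤ d := hN2.trans (by exact_mod_cast hdN2)
    rw [div_le_iff₀ hη] at h2
    linarith
  have hBD : B < D := by
    have h2 : (B : ℝ) ≤ η * d := by
      rw [hB]
      exact Nat.floor_le (by positivity)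
    have h3 : (B : ℝ) < d / 4 := by nlinarith
    have h4 : 4 * B < d := by
      have : (4 : ℝ) * B < d := by linarith
      exact_mod_cast this
    omega
  have hBd : B ≤ d := by omega
  have hQeq : Q = d * Real.sqrt d := by
    rw [hQ, Real.sqrt_eq_rpow]
    have : (3 / 2 : ℝ) = 1 + 1 / 2 := by norm_num
    rw [this, Real.rpow_add hdpos, Real.rpow_one]
  have hsq1 : 1 ≤ Real.sqrt d := by
    rw [Real.one_le_sqrt]
    linarith
  have hdQ : (d : ℝ) ≤ Q := by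
    rw [hQeq]
    nlinarith
  have hDa : (D : ℝ) * a ≤ Q := by
    have h2 : (a : ℝ) ≤ Real.sqrt d + 1 := by
      rw [ha]
      exact (Nat.ceil_lt_add_one (Real.sqrt_nonneg _)).le
    have h3 : (D : ℝ) ≤ d / 3 := by
      have : (3 : ℝ) * D ≤ d := by exact_mod_cast h3D
      linarith
    have h4 : (0 : ℝ) ≤ a := Nat.cast_nonneg a
    calc (D : ℝ) * a ≤ (d / 3) * (2 * Real.sqrt d) :=
          mul_le_mul h3 (by linarith) h4 (by positivity)
      _ ≤ Q := by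
          rw [hQeq]
          nlinarith [mul_nonneg hdpos.le (Real.sqrt_nonneg (d : ℝ))]
  -- the event
  obtain ⟨⟨a1, a2, a3, a4⟩, ⟨b1, b2, b3, b4⟩, c1, c2, e1, e2⟩ := hp
  rw [← hD] at b1 b2 b4 c2 e1 e2 ⊢
  rw [← hB] at a1 a2 a3 a4 b1 b2 b3
  rw [← hQ] at a2 a3 a4 b2 b3 ht ⊢
  rw [← ha] at e2
  obtain ⟨K, hK⟩ : ∃ K : ℤ, K = ∑ i ∈ IP D σ p.1, sg (p.2 i) := ⟨_, rfl⟩
  rw [← hK] at e1 e2
  have hX01 : X0 D σ p.1 1 = geo σ p.1 1 := X0_small D σ p.1 1 (by omega)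
  have hX0s : ∀ j ∈ Icc 2 B, X0 D σ p.1 j = geo σ p.1 j := by
    intro j hj
    rw [Finset.mem_Icc] at hj
    exact X0_small D σ p.1 j (by omega)
  have hg0 : (0 : ℝ) ≤ geo σ p.1 1 := by exact_mod_cast c1
  -- the real version of the end value
  have hT : (geo σ p.1 1 : ℝ) + (∑ j ∈ Icc 2 B, (j : ℝ) * (geo σ p.1 j : ℝ) +
      ∑ j ∈ Ioc B d, (j : ℝ) * (X0 D σ p.1 j : ℝ)) + D * K = t := by
    have h2 : (((geo σ p.1 1 + (∑ j ∈ Finset.Icc 2 d, (j : ℤ) * X0 D σ p.1 j) +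
        ((D : ℕ) : ℤ) * K : ℤ)) : ℝ) = t := by
      exact_mod_cast e1
    push_cast at h2
    have h3 : ∑ j ∈ Finset.Icc 2 d, (j : ℝ) * (X0 D σ p.1 j : ℝ) =
        ∑ j ∈ Icc 2 B, (j : ℝ) * (geo σ p.1 j : ℝ) +
        ∑ j ∈ Ioc B d, (j : ℝ) * (X0 D σ p.1 j : ℝ) := by
      have h4 := sum_split (fun j => (j : ℝ) * (X0 D σ p.1 j : ℝ)) hB1 hBd
      have h5 := sum_split (fun j => (j : ℝ) * (X0 D σ p.1 j : ℝ)) (B := d) (by omega) le_rfl
      rw [Finset.Ioc_self, Finset.sum_empty, add_zero] at h5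
      have h6 : ∑ j ∈ Icc 2 B, (j : ℝ) * (X0 D σ p.1 j : ℝ) =
          ∑ j ∈ Icc 2 B, (j : ℝ) * (geo σ p.1 j : ℝ) :=
        Finset.sum_congr rfl fun j hj => by rw [hX0s j hj]
      linarith
    rw [h3] at h2
    linarith
  refine ⟨?_, ?_, ?_⟩
  · -- persistence
    intro k hk
    rw [Finset.mem_Icc] at hk
    obtain ⟨hk1, hkd⟩ := hk
    have hkdr : (k : ℝ) ≤ d := by exact_mod_cast hkd
    have hk0 : (0 : ℝ) ≤ k := Nat.cast_nonneg k
    rw [sum_XT D d h3D σ p (fun j => ((min j k : ℕ) : ℝ)),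
      sum_split (fun j => ((min j k : ℕ) : ℝ) * (X0 D σ p.1 j : ℝ)) hB1 hBd]
    have hm1 : ((min 1 k : ℕ) : ℝ) * (X0 D σ p.1 1 : ℝ) = geo σ p.1 1 := by
      rw [hX01, min_eq_left hk1, Nat.cast_one, one_mul]
    have hsm : ∑ j ∈ Icc 2 B, ((min j k : ℕ) : ℝ) * (X0 D σ p.1 j : ℝ) =
        ∑ j ∈ Icc 2 B, ((min j k : ℕ) : ℝ) * (geo σ p.1 j : ℝ) :=
      Finset.sum_congr rfl fun j hj => by rw [hX0s j hj]
    rw [hm1, hsm]
    by_cases hkB : k ≤ B
    · have h2 := a1 k (Finset.mem_Icc.2 ⟨hk1, hkB⟩)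
      have h3 : ∑ j ∈ Ioc B d, ((min j k : ℕ) : ℝ) * (X0 D σ p.1 j : ℝ) =
          k * ∑ j ∈ Ioc B d, (X0 D σ p.1 j : ℝ) := by
        rw [Finset.mul_sum]
        refine Finset.sum_congr rfl fun j hj => ?_
        rw [Finset.mem_Ioc] at hj
        rw [min_eq_right (by omega)]
      have h4 : ∑ i ∈ IP D σ p.1, (sg (p.2 i) : ℝ) *
          (((min (i + D) k : ℕ) : ℝ) - ((min i k : ℕ) : ℝ)) = 0 := by
        refine Finset.sum_eq_zero fun i hi => ?_
        have h5 := IP_bounds hi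
        rw [min_eq_right (by omega : k ≤ i + D), min_eq_right (by omega : k ≤ i), sub_self,
          mul_zero]
      rw [h3, h4]
      have h5 := mul_le_mul_of_nonneg_left b1 hk0
      linarith
    · push Not at hkB
      have h2 : ∑ j ∈ Icc 2 B, ((min j k : ℕ) : ℝ) * (geo σ p.1 j : ℝ) =
          ∑ j ∈ Icc 2 B, (j : ℝ) * (geo σ p.1 j : ℝ) := by
        refine Finset.sum_congr rfl fun j hj => ?_
        rw [Finset.mem_Icc] at hj
        rw [min_eq_left (by omega)]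
      rw [h2]
      have h3 := b2 k (Finset.mem_Icc.2 ⟨hk1, hkd⟩)
      have h4 := b2 d (Finset.mem_Icc.2 ⟨by omega, le_rfl⟩)
      have h5 : ∑ j ∈ Ioc B d, ((min j d : ℕ) : ℝ) * (X0 D σ p.1 j : ℝ) =
          ∑ j ∈ Ioc B d, (j : ℝ) * (X0 D σ p.1 j : ℝ) := by
        refine Finset.sum_congr rfl fun j hj => ?_
        rw [Finset.mem_Ioc] at hj
        rw [min_eq_left (by omega)]
      rw [h5] at h4
      rw [abs_le] at h3 h4
      -- Abel summation
      have hm0 : ((min 0 K : ℤ) : ℝ) - a ≤ 0 := by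
        have h6 : min 0 K ≤ 0 := min_le_left _ _
        have h7 : ((min 0 K : ℤ) : ℝ) ≤ 0 := by exact_mod_cast h6
        have h8 : (0 : ℝ) ≤ a := Nat.cast_nonneg a
        linarith
      have h6 := abel_IP D σ p (((min 0 K : ℤ) : ℝ) - a) hm0 k (by
        intro l
        have h7 := e2 l
        exact_mod_cast h7)
      have h7 : (k : ℝ) * (C1 * Real.sqrt d) ≤ C1 * Q := by
        rw [hQeq]
        have h8 : 0 ≤ C1 * Real.sqrt d := by positivity
        nlinarith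
      rcases le_or_gt 0 K with hK0 | hK0
      · rw [min_eq_left hK0, Int.cast_zero, zero_sub] at h6
        linarith
      · rw [min_eq_right hK0.le] at h6
        have h8 : ((K : ℝ) - a) * D = D * K - D * a := by ring
        rw [h8] at h6
        linarith
  · -- the end value
    have h2 := sum_XT D d h3D σ p (fun j => (j : ℝ))
    rw [sum_split (fun j => (j : ℝ) * (X0 D σ p.1 j : ℝ)) hB1 hBd, hX01] at h2
    have hsm : ∑ j ∈ Icc 2 B, (j : ℝ) * (X0 D σ p.1 j : ℝ) =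
        ∑ j ∈ Icc 2 B, (j : ℝ) * (geo σ p.1 j : ℝ) :=
      Finset.sum_congr rfl fun j hj => by rw [hX0s j hj]
    rw [hsm] at h2
    have h3 : ∑ i ∈ IP D σ p.1, (sg (p.2 i) : ℝ) * (((i + D : ℕ) : ℝ) - (i : ℝ)) = D * K := by
      rw [hK, Int.cast_sum, Finset.mul_sum]
      refine Finset.sum_congr rfl fun i _ => ?_
      push_cast
      ring
    rw [h3] at h2
    have h4 : ((∑ j ∈ Icc 1 d, (j : ℤ) * XT D σ p j : ℤ) : ℝ) = t := by
      push_cast
      rw [h2, ← hT, Nat.cast_one, one_mul]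
      ring
    exact_mod_cast h4
  · -- the sum of the absolute values
    have h2 : ((∑ j ∈ Icc 1 d, (j : ℤ) * |XT D σ p j| : ℤ) : ℝ) =
        ∑ j ∈ Icc 1 d, (j : ℝ) * |(geo σ p.1 j : ℝ)| := by
      push_cast
      refine Finset.sum_congr rfl fun j _ => ?_
      have h3 := abs_XT D σ p j
      have h4 : |(XT D σ p j : ℝ)| = |(geo σ p.1 j : ℝ)| := by exact_mod_cast h3
      rw [h4]
    rw [h2]
    unfold m1
    rw [← Finset.sum_sub_distrib, sum_split _ hB1 hBd]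
    have h3 : |(geo σ p.1 1 : ℝ)| ≤ d := by
      rw [abs_of_nonneg hg0]
      have h4 : geo σ p.1 1 ≤ (d : ℤ) := by omega
      exact_mod_cast h4
    have hσd : 0 < σ * ((1 : ℕ) : ℝ) := by
      rw [Nat.cast_one, mul_one]
      exact hσ
    have h5 := mean_le hσd
    have h6 : 1 / (σ * ((1 : ℕ) : ℝ)) ≤ d / s1 := by
      rw [Nat.cast_one, mul_one, div_le_div_iff₀ hσ hs1]
      linarith
    have h7 : 0 ≤ 2 * Real.exp (-(σ * ((1 : ℕ) : ℝ))) / (1 - Real.exp (-(2 * (σ * ((1 : ℕ) : ℝ))))) := by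
      refine div_nonneg (by positivity) ?_
      rw [sub_nonneg, Real.exp_le_one_iff]
      linarith
    have h8 : (2 * σ * ((1 : ℕ) : ℝ)) = 2 * (σ * ((1 : ℕ) : ℝ)) := by ring
    have hlog : (8 / 7 * (R + 1 + 1 / s1)) ^ 2 / ε' ≤ Real.log d := by
      rw [Real.le_log_iff_exp_le hdpos]
      exact hN1.trans (by exact_mod_cast hdN1)
    have hsq : 8 / 7 * (R + 1 + 1 / s1) ≤ Real.sqrt (ε' * Real.log d) := by
      refine Real.le_sqrt_of_sq_le ?_
      rw [div_le_iff₀ hε'] at hlog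
      linarith
    have hsq8 : Real.sqrt (ε' / 64 * Real.log d) = Real.sqrt (ε' * Real.log d) / 8 := by
      have h9 : ε' / 64 * Real.log d = (ε' * Real.log d) / 8 ^ 2 := by ring
      rw [h9, Real.sqrt_div' _ (by positivity), Real.sqrt_sq (by norm_num)]
    rw [hsq8] at a4
    have hfin : (d : ℝ) * (1 + 1 / s1) + R * Q ≤ 7 / 8 * Real.sqrt (ε' * Real.log d) * Q := by
      have hs : 0 < 1 / s1 := by positivity
      have h9 : (d : ℝ) * (1 + 1 / s1) ≤ Q * (1 + 1 / s1) :=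
        mul_le_mul_of_nonneg_right hdQ (by positivity)
      have hQ0 : 0 ≤ Q := by linarith
      have h10 := mul_le_mul_of_nonneg_right hsq hQ0
      have h11 : 8 / 7 * (R + 1 + 1 / s1) * Q = 8 / 7 * (Q * (1 + 1 / s1) + R * Q) := by ring
      rw [h11] at h10
      linarith
    have hsplit3 : ∀ x y z : ℝ, |x + y + z| ≤ |x| + |y| + |z| := fun x y z =>
      (abs_add_le _ _).trans (add_le_add (abs_add_le _ _) le_rfl)
    refine (hsplit3 _ _ _).trans ?_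
    have h11 : |((1 : ℕ) : ℝ) * |(geo σ p.1 1 : ℝ)| - ((1 : ℕ) : ℝ) *
        (2 * Real.exp (-(σ * ((1 : ℕ) : ℝ))) / (1 - Real.exp (-(2 * σ * ((1 : ℕ) : ℝ)))))| ≤
        d + d / s1 := by
      rw [h8]
      refine (abs_sub _ _).trans ?_
      rw [Nat.cast_one, one_mul, one_mul, abs_abs]
      rw [Nat.cast_one] at h5 h6 h7
      rw [abs_of_nonneg h7]
      linarith
    have h12 : (d : ℝ) * (1 + 1 / s1) = d + d / s1 := by ring
    rw [h12] at hfin
    linarith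

end Pool.Agent.H860.GP174
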